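import Pool.Agent.H44.DV.Targets

/-!
# A leaf with the letters of a free interval accumulates at a closed leaf
-/

set_option autoImplicit false

namespace Pool.Agent.H69.DV

open Pool.Agent.H44.DU Pool.Agent.H44.DU.Surf

theorem wd_succ {n : ℕ} (W : ℕ → Side n) (k : ℕ) : wd W (k + 1) = wd W k ++ [W k] := by
  simp [wd, List.range_succ]

theorem A_wd {n : ℕ} (S : Surf n) (W : ℕ → Side n) (k : ℕ) :
    S.A (wd W k) = ∏ j ∈ Finset.range k, S.a (W j) := by
  induction k with
  | zero => simp [wd, A]
  | succ k ih => rw [wd_succ, A_append, ih, Finset.prod_range_succ]; simp [A]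

theorem per_mul {n : ℕ} {W : ℕ → Side n} {p : ℕ} (hW : ∀ k, W (k + p) = W k) (i k : ℕ) :
    W (k + i * p) = W k := by
  induction i with
  | zero => simp
  | succ i ih =>
    have : k + (i + 1) * p = (k + i * p) + p := by ring
    rw [this, hW, ih]

theorem A_wd_mul (h2 : D_SH) {n : ℕ} (S : Surf n) {W : ℕ → Side n} {p : ℕ}
    (hW : ∀ k, W (k + p) = W k) (i : ℕ) : S.A (wd W (i * p)) = S.A (wd W p) ^ i := by
  induction i with
  | zero => simp [wd, A]
  | succ i ih =>
    have h := (h2 n S 0 W p (i * p)).2.2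
    have h3 : (fun i => W (p + i)) = W := by
      funext j; rw [add_comm]; exact hW j
    rw [h3] at h
    have : (i + 1) * p = p + i * p := by ring
    rw [this, h, A_append, ih]
    ring

theorem pf_AT (h1 : D_PE) (h2 : D_SH) : D_AT := by
  intro n S t c₀ hGd hc₀ hGain hNW y c d hy hcd hFr
  obtain ⟨K, p, hp, hper⟩ := hNW _ c d hcd hFr
  set W : ℕ → Side n := fun k => (y k).1 with hWdef
  set W' : ℕ → Side n := fun i => W (K + i) with hW'def
  have hper' : ∀ k, W' (k + p) = W' k := by
    intro k
    have := hper (K + k) (by omega)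
    simp only [hW'def]
    rw [← add_assoc]
    exact this
  have hFr' : S.Fr t W' (S.g t (wd W K) c) (S.g t (wd W K) d) := by
    intro k x hx1 hx2
    have hA := S.A_pos (wd W K)
    have hroot : S.g t (wd W K) ((x - xi t (S.B (wd W K))) / S.A (wd W K)) = x := by
      simp only [g]
      field_simp
      ring
    set x' := (x - xi t (S.B (wd W K))) / S.A (wd W K) with hx'
    rw [← hroot, g_lt_iff] at hx1 hx2
    have h := hFr (K + k) x' hx1 hx2
    rw [(h2 n S t W K k).2.2, run_append] at h
    rw [← hroot]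
    exact h.2.2
  obtain ⟨hA1, xs, hxs, hrun⟩ := h1 n S t c₀ hGd hc₀ hGain W' _ _ p
    ((S.g_lt_iff t (wd W K)).2 hcd) hFr' hp hper'
  set z : ℕ → Side n × ℝ := fun j => (W' j, S.g t (wd W' j) xs) with hz
  have hchain : ∀ k, S.Tr t (z k) (z (k + 1)) := by
    have hJ : ∀ k, S.InJ t (W' k) (S.g t (wd W' k) xs) := by
      intro k
      have h := hrun (k + 1)
      rw [wd_succ, run_append, run_single] at h
      exact h.2.2
    intro k
    refine ⟨hJ k, hJ (k + 1), ?_, ?_⟩
    · exact (hy (K + k)).2.2.1
    · simp only [hz]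
      rw [wd_succ, g_append, g_single]
  have hzper : ∀ k, z (k + p) = z k := by
    intro k
    refine Prod.ext (hper' k) ?_
    simp only [hz]
    have h := (h2 n S t W' p k).2.2
    have h3 : (fun i => W' (p + i)) = W' := by
      funext j; rw [add_comm]; exact hper' j
    rw [h3] at h
    rw [add_comm k p, h, g_append, hxs]
  have hz0 : z 0 ∈ S.TPer t := S.chain_tper hchain hp hzper 0
  refine ⟨z 0, hz0, ?_⟩
  intro ε hε N
  set y' : ℕ → Side n × ℝ := fun k => y (K + k) with hy'
  have hychain : ∀ k, S.Tr t (y' k) (y' (k + 1)) := fun k => by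
    simp only [hy']
    rw [← add_assoc]
    exact hy (K + k)
  have hdiff : ∀ i : ℕ, (y' (i * p)).2 - (z 0).2 = S.A (wd W' p) ^ i * ((y' 0).2 - (z 0).2) := by
    intro i
    have h := S.chain_diff hychain hchain (fun k => rfl) 0 (i * p)
    simp only [zero_add] at h
    have hzi : z (i * p) = z 0 := by
      induction i with
      | zero => simp
      | succ i ih =>
        have : (i + 1) * p = i * p + p := by ring
        rw [this, hzper]
        apply ih
        have h' := S.chain_diff hychain hchain (fun k => rfl) 0 (i * p)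
        simp only [zero_add] at h'
        exact h'
    rw [hzi] at h
    rw [h, ← A_wd_mul h2 S hper' i, A_wd]
  have hApos := S.A_pos (wd W' p)
  have hlim : Filter.Tendsto (fun i : ℕ => S.A (wd W' p) ^ i * ((y' 0).2 - (z 0).2))
      Filter.atTop (nhds 0) := by
    have := (tendsto_pow_atTop_nhds_zero_of_lt_one hApos.le hA1).mul_const ((y' 0).2 - (z 0).2)
    simpa using this
  obtain ⟨i0, hi0⟩ := (Metric.tendsto_atTop.1 hlim) ε hε
  refine ⟨K + (max i0 N) * p, ?_, ?_, ?_⟩
  · have : N ≤ max i0 N * p := (le_max_right i0 N).trans (Nat.le_mul_of_pos_right _ hp)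
    omega
  · have h := per_mul hper' (max i0 N) 0
    rw [zero_add] at h
    exact h
  · have h := hi0 (max i0 N) (le_max_left _ _)
    rw [Real.dist_eq, sub_zero, ← hdiff] at h
    exact h

end Pool.Agent.H69.DV
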