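import Pool.Agent.H44.DV.Targets
import Pool.Agent.H44.DU.Targets2

/-!
# A free interval with periodic letters is attracted
-/

set_option autoImplicit false

namespace Pool.Agent.H69.DV.PE

open Pool.Agent.H44.DU Pool.Agent.H44.DU.Surf

theorem g_dev {n : ℕ} (S : Surf n) (t : ℝ) (w : List (Side n)) (c : Side n) :
    S.g t w (xi t (S.dev w c)) = xi t (S.P c) := by
  have hA := (S.A_pos w).ne'
  rw [dev, xi_div, xi_sub, g]
  field_simp
  ring

theorem wd_length {n : ℕ} (W : ℕ → Side n) (k : ℕ) : (wd W k).length = k := by simp [wd]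

theorem wd_get {n : ℕ} (W : ℕ → Side n) (N k : ℕ) (h : k < (wd W N).length) :
    (wd W N)[k] = W k := by simp [wd]

theorem wd_take {n : ℕ} (W : ℕ → Side n) (N k : ℕ) (h : k ≤ N) :
    (wd W N).take k = wd W k := by
  rw [wd, ← List.map_take, List.take_range, min_eq_left h]
  rfl

theorem wd_split {n : ℕ} (W : ℕ → Side n) (N : ℕ) (u w' : List (Side n)) (r : Side n)
    (h : wd W N = u ++ r :: w') : u = wd W u.length ∧ r = W u.length := by
  have hlen : N = u.length + (w'.length + 1) := by
    have := congrArg List.length h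
    rw [wd_length] at this
    simpa using this
  have hlt : u.length < (wd W N).length := by rw [wd_length]; omega
  refine ⟨?_, ?_⟩
  · rw [← wd_take W N u.length (by omega), h, List.take_left]
  · rw [← wd_get W N u.length hlt]
    simp [h]

/-- At most finitely many consecutive corners on a boundary leaf. -/
theorem no_corner (h4 : T_DV) (h5 : T_KD) {n : ℕ} (S : Surf n) {t c₀ : ℝ} (hGd : S.Gd t)
    (hc₀ : 0 < c₀) (hGain : S.Gain t c₀) (W : ℕ → Side n) (y : ℝ) (hy : ∀ k, S.Run t (wd W k) y)
    (p : ℕ) (hp : 0 < p) (x : ℝ) (hx : ∀ j, S.lc t W j ≤ x ∧ x ≤ S.rc t W j) (j : ℕ)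
    (hj : ∀ i : ℕ, S.lc t W (j + i * p) = x ∨ S.rc t W (j + i * p) = x) : False := by
  have hNJ : ∀ i : ℕ, ¬ S.InJ t (W (j + i * p)) (S.g t (wd W (j + i * p)) x) := by
    intro i hJ
    rcases hj i with h | h
    · have h1 := hJ.1
      rw [← h, lc, g_dev, P_nx] at h1
      exact lt_irrefl _ h1
    · have h1 := hJ.2
      rw [← h, rc, g_dev] at h1
      exact lt_irrefl _ h1
  set N := j + 3 * n * p + 1 with hN
  have hne : wd W N ≠ [] := by
    intro h0
    have := wd_length W N
    rw [h0] at this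
    simp at this
  obtain ⟨⟨u1, r1, w1, hw1, hlo⟩, ⟨u2, r2, w2, hw2, hhi⟩, -⟩ := h4 n S t (wd W N) hne
  have hlo' : S.lo t (wd W N) ≤ x := by
    obtain ⟨e1, e2⟩ := wd_split W N u1 w1 r1 hw1
    rw [hlo, e2]
    rw [show S.dev u1 = S.dev (wd W u1.length) from congrArg S.dev e1]
    exact (hx u1.length).1
  have hhi' : x ≤ S.hi t (wd W N) := by
    obtain ⟨e1, e2⟩ := wd_split W N u2 w2 r2 hw2
    rw [hhi, e2]
    rw [show S.dev u2 = S.dev (wd W u2.length) from congrArg S.dev e1]
    exact (hx u2.length).2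
  have hk1 : j < (wd W N).length := by rw [wd_length]; omega
  have hk2 : j + 3 * n * p < (wd W N).length := by rw [wd_length]; omega
  have h := h5 n S t c₀ hGd hc₀ hGain (wd W N) x ⟨y, hy N⟩ hlo' hhi' j (j + 3 * n * p) hk1 hk2
    (by
      rw [wd_get, wd_take W N j (by omega)]
      have := hNJ 0
      simpa using this)
    (by
      rw [wd_get, wd_take W N _ (by omega)]
      exact hNJ (3 * n))
  have h6 : 3 * n ≤ 3 * n * p := Nat.le_mul_of_pos_right _ hp
  omega

/-- Sequences which are dilated. -/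
theorem dil {A τ xs : ℝ} {a : ℕ → ℝ} {p : ℕ} (h : ∀ j, a j = A * a (p + j) + τ)
    (hxs : A * xs + τ = xs) (j i : ℕ) : a j - xs = A ^ i * (a (j + i * p) - xs) := by
  induction i with
  | zero => simp
  | succ i ih =>
    have h1 := h (j + i * p)
    have h2 : p + (j + i * p) = j + (i + 1) * p := by ring
    rw [h2] at h1
    rw [ih, h1, pow_succ]
    linear_combination A ^ i * hxs

theorem pf_PE (h1 : D_RC) (h2 : D_SH) (h3 : T_LH) (h4 : T_DV) (h5 : T_KD) : D_PE := by
  intro n S t c₀ hGd hc₀ hGain W c d p hcd hFr hp hper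
  have _ := h3
  obtain ⟨m, hm1, hm2⟩ := exists_between hcd
  have hrunm : ∀ k, S.Run t (wd W k) m := fun k => hFr k m hm1 hm2
  have hglue : ∀ j, (S.gl (W j)).1 = (W (j + 1)).1 := fun j =>
    ((h1 n S t m W (j + 2)).1 (hrunm _)).1 j (by omega)
  have hlr : ∀ x, c < x → x < d → ∀ j, S.lc t W j < x ∧ x < S.rc t W j := fun x hx1 hx2 j =>
    ((h1 n S t x W (j + 1)).1 (hFr _ x hx1 hx2)).2 j (by omega)
  have hlc : ∀ j, S.lc t W j ≤ c := by
    intro j
    by_contra hcon
    push Not at hcon
    obtain ⟨x, hx1, hx2⟩ := exists_between (lt_min hcon hcd)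
    have := (hlr x hx1 (hx2.trans_le (min_le_right _ _)) j).1
    exact lt_irrefl _ (this.trans (hx2.trans_le (min_le_left _ _)))
  have hrc : ∀ j, d ≤ S.rc t W j := by
    intro j
    by_contra hcon
    push Not at hcon
    obtain ⟨x, hx1, hx2⟩ := exists_between (max_lt hcon hcd)
    have := (hlr x ((le_max_right _ _).trans_lt hx1) hx2 j).2
    exact lt_irrefl _ (((le_max_left _ _).trans_lt hx1).trans this)
  set A := S.A (wd W p) with hAdef
  have hApos : 0 < A := S.A_pos _
  set τ := xi t (S.B (wd W p)) with hτ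
  have hf : ∀ x, S.g t (wd W p) x = A * x + τ := fun x => rfl
  have hWp : (fun i => W (p + i)) = W := by
    funext j; rw [add_comm]; exact hper j
  have hrcp : ∀ j, S.rc t W j = A * S.rc t W (p + j) + τ := by
    intro j
    have h := (h2 n S t W p j).1
    rw [hWp, hf] at h
    exact h
  have hlcp : ∀ j, S.lc t W j = A * S.lc t W (p + j) + τ := by
    intro j
    have h := (h2 n S t W p j).2.1
    rw [hWp, hf] at h
    exact h
  -- no expansion
  have hA1 : A ≤ 1 := by
    by_contra hcon
    push Not at hcon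
    have hx : A * (τ / (1 - A)) + τ = τ / (1 - A) := by
      have : (1 - A) ≠ 0 := by linarith
      field_simp
      ring
    obtain ⟨i, hi⟩ := pow_unbounded_of_one_lt ((S.rc t W 0 - S.lc t W 0) / (d - c)) hcon
    have e1 := dil hrcp hx 0 i
    have e2 := dil hlcp hx 0 i
    have e3 := hrc (0 + i * p)
    have e4 := hlc (0 + i * p)
    have hd : 0 < d - c := by linarith
    rw [div_lt_iff₀ hd] at hi
    have hAi : 0 < A ^ i := pow_pos hApos i
    nlinarith [mul_le_mul_of_nonneg_left (sub_le_sub e3 e4) hAi.le]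
  -- no translation
  have hA2 : A ≠ 1 := by
    intro hAe
    have hiter : ∀ (a : ℕ → ℝ), (∀ j, a j = A * a (p + j) + τ) → ∀ j i : ℕ,
        a j = a (j + i * p) + i * τ := by
      intro a ha j i
      induction i with
      | zero => simp
      | succ i ih =>
        have h1 := ha (j + i * p)
        have h2 : p + (j + i * p) = j + (i + 1) * p := by ring
        rw [h2, hAe] at h1
        rw [ih, h1]
        push_cast
        ring
    have hτ0 : τ = 0 := by
      rcases lt_trichotomy τ 0 with h | h | h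
      · exfalso
        obtain ⟨i, hi⟩ := exists_nat_gt ((c - S.lc t W 0) / (-τ))
        rw [div_lt_iff₀ (by linarith)] at hi
        have e1 := hiter _ hlcp 0 i
        have e2 := hlc (0 + i * p)
        nlinarith
      · exact h
      · exfalso
        obtain ⟨i, hi⟩ := exists_nat_gt ((S.rc t W 0 - d) / τ)
        rw [div_lt_iff₀ h] at hi
        have e1 := hiter _ hrcp 0 i
        have e2 := hrc (0 + i * p)
        nlinarith
    have hlcper : ∀ j i : ℕ, S.lc t W (j + i * p) = S.lc t W j := by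
      intro j i
      have := hiter _ hlcp j i
      rw [hτ0] at this
      simpa using this.symm
    obtain ⟨j0, -, hj0⟩ := Finset.exists_max_image (Finset.range p) (fun j => S.lc t W j)
      ⟨0, Finset.mem_range.2 hp⟩
    apply no_corner h4 h5 S hGd hc₀ hGain W m hrunm p hp (S.lc t W j0) ?_ j0
      (fun i => Or.inl (hlcper j0 i))
    intro j
    refine ⟨?_, (hlc j0).trans (hcd.le.trans (hrc j))⟩
    have e1 : S.lc t W j = S.lc t W (j % p) := by
      have := hlcper (j % p) (j / p)
      rw [← this]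
      congr 1
      rw [mul_comm]
      exact (Nat.mod_add_div j p).symm
    rw [e1]
    exact hj0 _ (Finset.mem_range.2 (Nat.mod_lt _ hp))
  have hA3 : A < 1 := lt_of_le_of_ne hA1 hA2
  set xs := τ / (1 - A) with hxsdef
  have hxs : A * xs + τ = xs := by
    have : (1 - A) ≠ 0 := by linarith
    rw [hxsdef]
    field_simp
    ring
  have hlim : ∀ v : ℝ, Filter.Tendsto (fun i : ℕ => A ^ i * v) Filter.atTop (nhds 0) := by
    intro v
    have := (tendsto_pow_atTop_nhds_zero_of_lt_one hApos.le hA3).mul_const v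
    simpa using this
  have hl1 : ∀ j, S.lc t W j ≤ xs := by
    intro j
    have : S.lc t W j - xs ≤ 0 := by
      refine ge_of_tendsto' (hlim (c - xs)) (fun i => ?_)
      rw [dil hlcp hxs j i]
      exact mul_le_mul_of_nonneg_left (sub_le_sub_right (hlc _) _) (pow_pos hApos i).le
    linarith
  have hr1 : ∀ j, xs ≤ S.rc t W j := by
    intro j
    have : 0 ≤ S.rc t W j - xs := by
      refine le_of_tendsto' (hlim (d - xs)) (fun i => ?_)
      rw [dil hrcp hxs j i]
      exact mul_le_mul_of_nonneg_left (sub_le_sub_right (hrc _) _) (pow_pos hApos i).le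
    linarith
  have hfix : ∀ (a : ℕ → ℝ), (∀ j, a j = A * a (p + j) + τ) → ∀ j : ℕ, a j = xs →
      ∀ i : ℕ, a (j + i * p) = xs := by
    intro a ha j hj i
    have e := dil ha hxs j i
    rw [hj, sub_self] at e
    have hAi : A ^ i ≠ 0 := (pow_pos hApos i).ne'
    rcases mul_eq_zero.1 e.symm with h | h
    · exact absurd h hAi
    · linarith
  have hl2 : ∀ j, S.lc t W j < xs := by
    intro j
    refine lt_of_le_of_ne (hl1 j) (fun hj => ?_)
    exact no_corner h4 h5 S hGd hc₀ hGain W m hrunm p hp xs (fun j => ⟨hl1 j, hr1 j⟩) j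
      (fun i => Or.inl (hfix _ hlcp j hj i))
  have hr2 : ∀ j, xs < S.rc t W j := by
    intro j
    refine lt_of_le_of_ne (hr1 j) (fun hj => ?_)
    exact no_corner h4 h5 S hGd hc₀ hGain W m hrunm p hp xs (fun j => ⟨hl1 j, hr1 j⟩) j
      (fun i => Or.inr (hfix _ hrcp j hj.symm i))
  refine ⟨hA3, xs, hxs, fun k => ?_⟩
  exact (h1 n S t xs W k).2 ⟨fun j _ => hglue j, fun j _ => ⟨hl2 j, hr2 j⟩⟩

end Pool.Agent.H69.DV.PE
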