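import Pool.Agent.H44.DV.Targets

/-!
# A word which is not cut has only one continuation
-/

set_option autoImplicit false

namespace Pool.Agent.H69.DV

open Pool.Agent.H44.DU Pool.Agent.H44.DU.Surf

theorem pf_SW (h : T_LH) : D_SW := by
  intro n S t w0 l r hcut hy x hx
  obtain ⟨y, hy⟩ := hy
  set w := w0 ++ [l] with hw
  have hne : w ≠ [] := by rw [hw]; simp
  have hrun : ∀ x, S.Run t w x ↔ S.Chn w ∧ S.lo t w < x ∧ x < S.hi t w := h n S t w hne
  have hI : ∀ x, S.Run t w x → S.InI t (S.gl l) (S.g t w x) := by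
    intro x hx
    rw [hw, run_append, run_single] at hx
    rw [hw, g_append, g_single, inI_gl_iff]
    exact hx.2.2
  have hy' := hy
  rw [hw, run_snoc, ← hw] at hy'
  obtain ⟨hy1, hy2, hy3⟩ := hy'
  rw [hw, run_snoc, ← hw]
  refine ⟨hx, hy2, ?_⟩
  set c := xi t (S.O (S.gl l)) with hc
  have hnb : ∀ x, S.lo t w ≤ x → x ≤ S.hi t w → S.g t w x ≠ c := by
    intro x h1 h2 h3
    exact hcut ⟨⟨y, hy1⟩, x, h1, h2, h3⟩
  have hroot : S.g t w ((c - xi t (S.B w)) / S.A w) = c := by
    have hA := S.A_pos w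
    simp only [g]
    field_simp
    ring
  have bx := ((hrun x).1 hx).2
  have by' := ((hrun y).1 hy1).2
  have key : (c < S.g t w y ↔ c < S.g t w x) := by
    set z := (c - xi t (S.B w)) / S.A w with hz
    have hzn : ¬ (S.lo t w ≤ z ∧ z ≤ S.hi t w) := fun hh => hnb z hh.1 hh.2 hroot
    rw [← hroot, g_lt_iff, g_lt_iff]
    constructor
    · intro h1
      by_contra h2
      push Not at h2
      exact hzn ⟨bx.1.le.trans h2, h1.le.trans by'.2.le⟩
    · intro h1
      by_contra h2
      push Not at h2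
      exact hzn ⟨by'.1.le.trans h2, h1.le.trans bx.2.le⟩
  have hyc : S.g t w y ≠ c := hnb y by'.1.le by'.2.le
  have hxc : S.g t w x ≠ c := hnb x bx.1.le bx.2.le
  have hIx := hI x hx
  have hIy := hI y hy1
  rcases lt_or_gt_of_ne hyc with h1 | h1
  · have hr := S.exit_left hIy h1
    have hre : r = nx (nx (S.gl l)) := S.exit_unique hy2.symm hy3 hr
    rw [hre]
    apply S.exit_left hIx
    rcases lt_or_gt_of_ne hxc with h2 | h2
    · exact h2
    · exact absurd (key.2 h2) (not_lt.2 h1.le)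
  · have hr := S.exit_right hIy h1
    have hre : r = nx (S.gl l) := S.exit_unique hy2.symm hy3 hr
    rw [hre]
    exact S.exit_right hIx (key.1 h1)

end Pool.Agent.H69.DV
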